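import Pool.Agent.W203.BE.Stms

set_option autoImplicit false

open MeasureTheory Set Complex
open scoped ENNReal

namespace Pool.Agent.W918.BE

open Pool.Agent.W203.BE

/-- the map `(p, u) ↦ (p + u, p - u)` -/
noncomputable def mm : (ℝ × ℝ) →ₗ[ℝ] (ℝ × ℝ) :=
  (LinearMap.fst ℝ ℝ ℝ + LinearMap.snd ℝ ℝ ℝ).prod (LinearMap.fst ℝ ℝ ℝ - LinearMap.snd ℝ ℝ ℝ)

theorem mm_apply (q : ℝ × ℝ) : mm q = (q.1 + q.2, q.1 - q.2) := rfl

theorem mm_det : LinearMap.det mm = -2 := by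
  rw [← LinearMap.det_toMatrix (Module.Basis.finTwoProd ℝ), Matrix.det_fin_two]
  simp [LinearMap.toMatrix_apply, mm_apply]
  norm_num

theorem mm_meas : Measurable mm := by
  have : (mm : ℝ × ℝ → ℝ × ℝ) = fun q => (q.1 + q.2, q.1 - q.2) := rfl
  rw [this]
  fun_prop

theorem mm_map : Measure.map mm (volume : Measure (ℝ × ℝ)) = (2 : ℝ≥0∞)⁻¹ • volume := by
  have h := Measure.map_linearMap_addHaar_eq_smul_addHaar (volume : Measure (ℝ × ℝ))
    (f := mm) (by rw [mm_det]; norm_num)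
  rw [h, mm_det]
  congr 1
  rw [abs_inv, abs_neg, abs_two, ENNReal.ofReal_inv_of_pos (by norm_num)]
  norm_num

theorem int_mm (Φ : ℝ × ℝ → ℂ) (hΦ : Integrable Φ (volume : Measure (ℝ × ℝ))) :
    Integrable (fun q => Φ (mm q)) (volume : Measure (ℝ × ℝ)) ∧
    ∫ q, Φ q = 2 * ∫ q, Φ (mm q) := by
  have h1 : Integrable Φ (Measure.map mm (volume : Measure (ℝ × ℝ))) := by
    rw [mm_map]
    exact hΦ.smul_measure (by simp)
  have h2 : Integrable (Φ ∘ mm) (volume : Measure (ℝ × ℝ)) :=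
    (integrable_map_measure h1.aestronglyMeasurable mm_meas.aemeasurable).1 h1
  refine ⟨h2, ?_⟩
  have h3 := integral_map (mm_meas.aemeasurable (μ := (volume : Measure (ℝ × ℝ))))
    h1.aestronglyMeasurable
  rw [← h3, mm_map, integral_smul_measure]
  simp

theorem sqT (hbas : S_BAS) (hl2 : S_L2) : S_SQ := by
  intro z hz g hgm hgi
  have hpi := Real.pi_pos
  have hpiC : (Real.pi : ℂ) ≠ 0 := by exact_mod_cast hpi.ne'
  have hz0 : z ≠ 0 := by
    rintro rfl
    simp at hz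
  set α : ℂ := (Real.pi : ℂ) / z with hα
  set β : ℂ := (Real.pi : ℂ) / (2 * z) with hβ
  have hre : ∀ w : ℂ, 0 < w.re → 0 < ((Real.pi : ℂ) / w).re := by
    intro w hw
    have hw0 : w ≠ 0 := by
      rintro rfl
      simp at hw
    rw [Complex.div_re]
    have : 0 < Complex.normSq w := Complex.normSq_pos.2 hw0
    simp only [Complex.ofReal_re, Complex.ofReal_im, zero_mul, zero_div, add_zero]
    positivity
  have hα0 : 0 < α.re := hre z hz
  have hβ0 : 0 < β.re := hre (2 * z) (by simpa using hz)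
  have hga : ∀ y : ℝ, g1 α y = z ^ (1 / 2 : ℂ) * cexp (-((Real.pi : ℂ) * z) * (y : ℂ) ^ 2) := by
    intro y
    unfold g1
    have e1 : (Real.pi : ℂ) / α = z := by rw [hα]; field_simp
    have e2 : (Real.pi : ℂ) ^ 2 / α = Real.pi * z := by rw [hα]; field_simp
    rw [e1, e2]
  have hgb : ∀ y : ℝ, g1 β y =
      (2 * z) ^ (1 / 2 : ℂ) * cexp (-(2 * (Real.pi : ℂ) * z) * (y : ℂ) ^ 2) := by
    intro y
    unfold g1
    have e1 : (Real.pi : ℂ) / β = 2 * z := by rw [hβ]; field_simp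
    have e2 : (Real.pi : ℂ) ^ 2 / β = 2 * Real.pi * z := by rw [hβ]; field_simp
    rw [e1, e2]
  have hzz : ∀ w : ℂ, w ≠ 0 → w ^ (1 / 2 : ℂ) * w ^ (1 / 2 : ℂ) = w := by
    intro w hw
    rw [← Complex.cpow_add _ _ hw]
    norm_num
  -- measurability and integrability of `A g z`
  have hcu : Continuous fun u : ℝ => cexp (-(2 * (Real.pi : ℂ) * z * (u : ℂ) ^ 2)) := by fun_prop
  have hcu1 : ∀ u : ℝ, ‖cexp (-(2 * (Real.pi : ℂ) * z * (u : ℂ) ^ 2))‖ ≤ 1 := by
    intro u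
    rw [Complex.norm_exp, Real.exp_le_one_iff]
    have : (-(2 * (Real.pi : ℂ) * z * (u : ℂ) ^ 2)).re = -(2 * Real.pi * z.re * u ^ 2) := by
      have e1 : -(2 * (Real.pi : ℂ) * z * (u : ℂ) ^ 2) =
          ((-(2 * Real.pi * u ^ 2) : ℝ) : ℂ) * z := by push_cast; ring
      rw [e1, Complex.re_ofReal_mul]
      ring
    rw [this]
    have : 0 ≤ 2 * Real.pi * z.re * u ^ 2 := by positivity
    linarith
  have hgg : Integrable (fun q : ℝ × ℝ => g q.1 * g q.2) (volume : Measure (ℝ × ℝ)) :=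
    hgi.mul_prod hgi
  have hHm : Measurable (fun q : ℝ × ℝ => g (q.1 + q.2) * g (q.1 - q.2) *
      cexp (-(2 * (Real.pi : ℂ) * z * (q.2 : ℂ) ^ 2))) := by
    have hm1 : Measurable fun q : ℝ × ℝ => g (q.1 + q.2) :=
      hgm.comp (measurable_fst.add measurable_snd)
    have hm2 : Measurable fun q : ℝ × ℝ => g (q.1 - q.2) :=
      hgm.comp (measurable_fst.sub measurable_snd)
    exact (hm1.mul hm2).mul (hcu.measurable.comp measurable_snd)
  have hHi : Integrable (fun q : ℝ × ℝ => g (q.1 + q.2) * g (q.1 - q.2) *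
      cexp (-(2 * (Real.pi : ℂ) * z * (q.2 : ℂ) ^ 2))) (volume : Measure (ℝ × ℝ)) := by
    have h1 := (int_mm _ hgg).1
    refine h1.norm.mono' hHm.aestronglyMeasurable (Filter.Eventually.of_forall fun q => ?_)
    rw [norm_mul]
    exact mul_le_of_le_one_right (norm_nonneg _) (hcu1 q.2)
  have hAm : Measurable (A g z) :=
    (StronglyMeasurable.integral_prod_right (f := fun p u : ℝ => g (p + u) * g (p - u) *
      cexp (-(2 * (Real.pi : ℂ) * z * (u : ℂ) ^ 2))) hHm.stronglyMeasurable).measurable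
  have hAi : Integrable (A g z) := hHi.integral_prod_left
  -- the identity
  have hid : ∀ x : ℝ, (T1 α g x) ^ 2 = (2 * z) ^ (1 / 2 : ℂ) * T1 β (A g z) x := by
    intro x
    obtain ⟨hc, _, hn, _⟩ := hbas α hα0
    have hk : Integrable fun y : ℝ => g1 α (x - y) * g y := by
      refine Integrable.bdd_mul (c := Real.sqrt (Real.pi / ‖α‖)) hgi
        (hc.comp (continuous_const.sub continuous_id)).aestronglyMeasurable
        (Filter.Eventually.of_forall fun y => ?_)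
      rw [hn]
      refine mul_le_of_le_one_right (Real.sqrt_nonneg _) ?_
      rw [Real.exp_le_one_iff]
      have : 0 ≤ Real.pi ^ 2 * α.re / ‖α‖ ^ 2 * (x - y) ^ 2 := by positivity
      linarith
    have hk2 : Integrable (fun q : ℝ × ℝ => (g1 α (x - q.1) * g q.1) * (g1 α (x - q.2) * g q.2))
        (volume : Measure (ℝ × ℝ)) := hk.mul_prod hk
    obtain ⟨hi3, h3⟩ := int_mm _ hk2
    have h4 : (T1 α g x) ^ 2 =
        ∫ q : ℝ × ℝ, (g1 α (x - q.1) * g q.1) * (g1 α (x - q.2) * g q.2) := by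
      rw [pow_two, Measure.volume_eq_prod, integral_prod_mul (fun y => g1 α (x - y) * g y)
        (fun y => g1 α (x - y) * g y)]
      rfl
    rw [h4, h3, Measure.volume_eq_prod, integral_prod _ (by rw [Measure.volume_eq_prod] at hi3; exact hi3)]
    unfold T1
    rw [← integral_const_mul, ← integral_const_mul]
    refine integral_congr_ae (Filter.Eventually.of_forall fun p => ?_)
    simp only [mm_apply]
    rw [hgb]
    unfold A
    rw [← mul_assoc, ← mul_assoc, hzz (2 * z) (by simpa using hz0), ← integral_const_mul,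
      ← integral_const_mul]
    refine integral_congr_ae (Filter.Eventually.of_forall fun u => ?_)
    simp only
    rw [hga, hga]
    have h5 := hzz z hz0
    have h6 : cexp (-((Real.pi : ℂ) * z) * ((x - (p + u) : ℝ) : ℂ) ^ 2) *
        cexp (-((Real.pi : ℂ) * z) * ((x - (p - u) : ℝ) : ℂ) ^ 2) =
        cexp (-(2 * (Real.pi : ℂ) * z) * ((x - p : ℝ) : ℂ) ^ 2) *
        cexp (-(2 * (Real.pi : ℂ) * z * (u : ℂ) ^ 2)) := by
      rw [← Complex.exp_add, ← Complex.exp_add]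
      congr 1
      push_cast
      ring
    calc 2 * (z ^ (1 / 2 : ℂ) * cexp (-((Real.pi : ℂ) * z) * ((x - (p + u) : ℝ) : ℂ) ^ 2) *
          g (p + u) * (z ^ (1 / 2 : ℂ) *
          cexp (-((Real.pi : ℂ) * z) * ((x - (p - u) : ℝ) : ℂ) ^ 2) * g (p - u)))
        = 2 * (z ^ (1 / 2 : ℂ) * z ^ (1 / 2 : ℂ)) *
          (cexp (-((Real.pi : ℂ) * z) * ((x - (p + u) : ℝ) : ℂ) ^ 2) *
          cexp (-((Real.pi : ℂ) * z) * ((x - (p - u) : ℝ) : ℂ) ^ 2)) *
          (g (p + u) * g (p - u)) := by ring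
      _ = _ := by rw [h5, h6]; ring
  have h7 : ∀ x : ℝ, ‖T1 α g x‖ₑ ^ 4 = ‖(2 * z) ^ (1 / 2 : ℂ)‖ₑ ^ 2 * ‖T1 β (A g z) x‖ₑ ^ 2 := by
    intro x
    rw [← mul_pow, ← enorm_mul, ← hid x, enorm_pow, ← pow_mul]
  have h8 : ‖(2 * z) ^ (1 / 2 : ℂ)‖ₑ ^ 2 = ENNReal.ofReal (2 * ‖z‖) := by
    rw [← enorm_pow, pow_two, hzz (2 * z) (by simpa using hz0), ← ofReal_norm, norm_mul]
    norm_num
  have h9 := hl2 β hβ0 (A g z) hAm hAi
  calc ∫⁻ x, ‖T1 α g x‖ₑ ^ 4
      = ∫⁻ x, ENNReal.ofReal (2 * ‖z‖) * ‖T1 β (A g z) x‖ₑ ^ 2 := by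
        refine lintegral_congr fun x => ?_
        rw [h7, h8]
    _ = ENNReal.ofReal (2 * ‖z‖) * ∫⁻ x, ‖T1 β (A g z) x‖ₑ ^ 2 :=
        lintegral_const_mul' _ _ ENNReal.ofReal_ne_top
    _ ≤ ENNReal.ofReal (2 * ‖z‖) * ∫⁻ p, ‖A g z p‖ₑ ^ 2 := by gcongr

end Pool.Agent.W918.BE
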